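import Mathlib

set_option autoImplicit false

open Set Topology

namespace Pool.Agent.Results.MP_b47357_gt.HausdorffCounterexample

universe u v

/-- `X` is weakly Lindelöf: every open cover has a countable subfamily with dense union. -/
def WeaklyLindelof (X : Type u) [TopologicalSpace X] : Prop :=
  ∀ 𝒰 : Set (Set X), (∀ U ∈ 𝒰, IsOpen U) → ⋃₀ 𝒰 = univ →
    ∃ 𝒱 : Set (Set X), 𝒱 ⊆ 𝒰 ∧ 𝒱.Countable ∧ Dense (⋃₀ 𝒱)

/-- `X` is productively weakly Lindelöf: `X × Y` is weakly Lindelöf for every weakly Lindelöf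
space `Y`. -/
def ProductivelyWeaklyLindelof (X : Type u) [TopologicalSpace X] : Prop :=
  ∀ (Y : Type v) [TopologicalSpace Y], WeaklyLindelof Y → WeaklyLindelof (X × Y)

/-- `X` is weakly Alster: every family of `Gδ` sets, not having `X` as a member, such that every
compact set lies in a member, has a countable subfamily with dense union. -/
def WeaklyAlster (X : Type u) [TopologicalSpace X] : Prop :=
  ∀ 𝒰 : Set (Set X), (∀ U ∈ 𝒰, IsGδ U) → univ ∉ 𝒰 →
    (∀ K : Set X, IsCompact K → ∃ U ∈ 𝒰, K ⊆ U) →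
    ∃ 𝒱 : Set (Set X), 𝒱 ⊆ 𝒰 ∧ 𝒱.Countable ∧ Dense (⋃₀ 𝒱)

/-- If a countable set meets the closure of every nonempty open set, the space is productively
weakly Lindelöf. -/
theorem productively_of_thetaDense {X : Type u} [TopologicalSpace X] (A : Set X)
    (hA : A.Countable) (hd : ∀ G : Set X, IsOpen G → G.Nonempty → (A ∩ closure G).Nonempty) :
    ProductivelyWeaklyLindelof.{u, v} X := by
  classical
  intro Y _ hY 𝒰 hop hcov
  -- for each `a`, a countable subfamily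
  have h1 : ∀ a : X, ∃ 𝒲 : Set (Set (X × Y)), 𝒲 ⊆ 𝒰 ∧ 𝒲.Countable ∧
      ∀ V : Set Y, IsOpen V → V.Nonempty → ∃ W ∈ 𝒲, ∃ G : Set X, ∃ y ∈ V, IsOpen G ∧ a ∈ G ∧
        G ×ˢ {y} ⊆ W := by
    intro a
    let 𝒪 : Set (Set Y) := {V | IsOpen V ∧ ∃ W ∈ 𝒰, ∃ G : Set X, IsOpen G ∧ a ∈ G ∧ G ×ˢ V ⊆ W}
    have h2 : ⋃₀ 𝒪 = univ := by
      rw [sUnion_eq_univ_iff]
      intro y
      have : (a, y) ∈ ⋃₀ 𝒰 := by rw [hcov]; trivial
      obtain ⟨W, hW, hmem⟩ := this
      obtain ⟨G, V, hG, hV, haG, hyV, hsub⟩ := isOpen_prod_iff.mp (hop W hW) a y hmem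
      exact ⟨V, ⟨hV, W, hW, G, hG, haG, hsub⟩, hyV⟩
    obtain ⟨𝒱, hsub, hcount, hdense⟩ := hY 𝒪 (fun V hV => hV.1) h2
    have h3 : ∀ V : Set Y, ∃ W : Set (X × Y), V ∈ 𝒱 → W ∈ 𝒰 ∧ ∃ G : Set X, IsOpen G ∧ a ∈ G ∧
        G ×ˢ V ⊆ W := by
      intro V
      by_cases hV : V ∈ 𝒱
      · obtain ⟨_, W, hW, G, hG⟩ := hsub hV
        exact ⟨W, fun _ => ⟨hW, G, hG⟩⟩
      · exact ⟨∅, fun h => absurd h hV⟩
    choose w hw using h3
    refine ⟨w '' 𝒱, ?_, hcount.image w, ?_⟩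
    · rintro _ ⟨V, hV, rfl⟩
      exact (hw V hV).1
    · intro V hV hne
      obtain ⟨y, hyV, V', hV', hy'⟩ := hdense.inter_open_nonempty V hV hne
      obtain ⟨_, G, hG, haG, hs⟩ := hw V' hV'
      refine ⟨w V', ⟨V', hV', rfl⟩, G, y, hyV, hG, haG, ?_⟩
      refine Subset.trans ?_ hs
      exact prod_mono_right (singleton_subset_iff.mpr hy')
  choose 𝒲 hs hc hm using h1
  refine ⟨⋃ a ∈ A, 𝒲 a, iUnion₂_subset fun a _ => hs a, hA.biUnion fun a _ => hc a, ?_⟩
  rw [dense_iff_inter_open]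
  intro O hO ⟨p, hp⟩
  obtain ⟨G, V, hG, hV, hpG, hpV, hsub⟩ := isOpen_prod_iff.mp hO p.1 p.2 hp
  obtain ⟨a, haA, hacl⟩ := hd G hG ⟨p.1, hpG⟩
  obtain ⟨W, hW, G', y, hyV, hG', haG', hs'⟩ := hm a V hV ⟨p.2, hpV⟩
  obtain ⟨x, hxG', hxG⟩ := mem_closure_iff.mp hacl G' hG' haG'
  refine ⟨(x, y), hsub ⟨hxG, hyV⟩, W, ?_, hs' ⟨hxG', rfl⟩⟩
  simp only [mem_iUnion]
  exact ⟨a, haA, hW⟩

/-- The points of the example: the points `low a` (thought of as `√2 + a`) and, for every real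
index `i`, a copy `cop x i` of the rational `x`. -/
inductive Sp : Type
  | low : ℚ → Sp
  | cop : ℚ → ℝ → Sp

open Sp

/-- The position of a point on the real line. -/
noncomputable def pos : Sp → ℝ
  | low a => Real.sqrt 2 + a
  | cop x _ => x

/-- Neighbourhoods of `low a` contain all points `cop x i` with `x` close to `√2 + a`; neighbourhoods
of `cop x i` contain the points `cop y i` with `y` close to `x`. -/
instance topo : TopologicalSpace Sp where
  IsOpen U := (∀ a, low a ∈ U → ∃ ε > 0, ∀ (x : ℚ) (i : ℝ), |(x : ℝ) - pos (low a)| < ε → cop x i ∈ U) ∧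
    (∀ x i, cop x i ∈ U → ∃ ε > 0, ∀ y : ℚ, |(y : ℝ) - x| < ε → cop y i ∈ U)
  isOpen_univ := ⟨fun _ _ => ⟨1, one_pos, fun _ _ _ => trivial⟩,
    fun _ _ _ => ⟨1, one_pos, fun _ _ => trivial⟩⟩
  isOpen_inter := by
    rintro U V ⟨hU1, hU2⟩ ⟨hV1, hV2⟩
    refine ⟨fun a ha => ?_, fun x i hx => ?_⟩
    · obtain ⟨ε, hε, h1⟩ := hU1 a ha.1
      obtain ⟨ε', hε', h2⟩ := hV1 a ha.2
      exact ⟨min ε ε', lt_min hε hε', fun x i h =>
        ⟨h1 x i (h.trans_le (min_le_left _ _)), h2 x i (h.trans_le (min_le_right _ _))⟩⟩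
    · obtain ⟨ε, hε, h1⟩ := hU2 x i hx.1
      obtain ⟨ε', hε', h2⟩ := hV2 x i hx.2
      exact ⟨min ε ε', lt_min hε hε', fun y h =>
        ⟨h1 y (h.trans_le (min_le_left _ _)), h2 y (h.trans_le (min_le_right _ _))⟩⟩
  isOpen_sUnion := by
    intro S hS
    refine ⟨fun a ha => ?_, fun x i hx => ?_⟩
    · obtain ⟨U, hU, ha⟩ := ha
      obtain ⟨ε, hε, h⟩ := (hS U hU).1 a ha
      exact ⟨ε, hε, fun x i hx => ⟨U, hU, h x i hx⟩⟩
    · obtain ⟨U, hU, hx⟩ := hx
      obtain ⟨ε, hε, h⟩ := (hS U hU).2 x i hx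
      exact ⟨ε, hε, fun y hy => ⟨U, hU, h y hy⟩⟩

theorem isOpen_def (U : Set Sp) : IsOpen U ↔
    (∀ a, low a ∈ U → ∃ ε > 0, ∀ (x : ℚ) (i : ℝ), |(x : ℝ) - pos (low a)| < ε → cop x i ∈ U) ∧
    (∀ x i, cop x i ∈ U → ∃ ε > 0, ∀ y : ℚ, |(y : ℝ) - x| < ε → cop y i ∈ U) := Iff.rfl

theorem pos_low_ne (a q : ℚ) : pos (low a) ≠ q := by
  intro h
  have h1 : Irrational (Real.sqrt 2 + a) := irrational_sqrt_two.add_ratCast a
  exact h1 ⟨q, h.symm⟩

theorem continuous_pos : Continuous pos := by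
  rw [continuous_def]
  intro V hV
  rw [Metric.isOpen_iff] at hV
  refine (isOpen_def _).mpr ⟨fun a ha => ?_, fun x i hx => ?_⟩
  · obtain ⟨ε, hε, h⟩ := hV _ ha
    refine ⟨ε, hε, fun x i hx => h ?_⟩
    rw [Metric.mem_ball, Real.dist_eq]
    exact hx
  · obtain ⟨ε, hε, h⟩ := hV _ hx
    refine ⟨ε, hε, fun y hy => h ?_⟩
    rw [Metric.mem_ball, Real.dist_eq]
    exact hy

/-- The `i`-th copy of the rationals is open. -/
theorem isOpen_copy (i : ℝ) : IsOpen {p : Sp | ∃ x, p = cop x i} := by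
  refine (isOpen_def _).mpr ⟨fun a ha => ?_, fun x j hx => ?_⟩
  · obtain ⟨x, hx⟩ := ha
    exact absurd hx (by simp)
  · obtain ⟨y, hy⟩ := hx
    obtain ⟨rfl, rfl⟩ : x = y ∧ j = i := by simpa using hy
    exact ⟨1, one_pos, fun z _ => ⟨z, rfl⟩⟩

instance : T2Space Sp := by
  refine ⟨fun p q hpq => ?_⟩
  by_cases h : pos p = pos q
  · match p, q with
    | low a, low b =>
      exfalso
      apply hpq
      have : (a : ℝ) = b := by simpa [pos] using h
      rw [show a = b by exact_mod_cast this]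
    | low a, cop x i => exact absurd h (pos_low_ne a x)
    | cop x i, low a => exact absurd h.symm (pos_low_ne a x)
    | cop x i, cop y j =>
      have hxy : x = y := by
        have : (x : ℝ) = y := h
        exact_mod_cast this
      have hij : i ≠ j := by
        rintro rfl
        exact hpq (by rw [hxy])
      refine ⟨_, _, isOpen_copy i, isOpen_copy j, ⟨x, rfl⟩, ⟨y, rfl⟩, ?_⟩
      rw [disjoint_left]
      rintro _ ⟨z, rfl⟩ ⟨w, hw⟩
      exact hij (by simp at hw; exact hw.2)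
  · obtain ⟨U, V, hU, hV, hpU, hqV, hd⟩ := t2_separation h
    exact ⟨pos ⁻¹' U, pos ⁻¹' V, hU.preimage continuous_pos, hV.preimage continuous_pos, hpU, hqV,
      hd.preimage _⟩

theorem productively : ProductivelyWeaklyLindelof.{0, v} Sp := by
  refine productively_of_thetaDense (range low) (countable_range _) ?_
  intro G hG hne
  -- a point `cop x i` of `G`
  have h1 : ∃ x i, cop x i ∈ G := by
    obtain ⟨p, hp⟩ := hne
    match p with
    | low a =>
      obtain ⟨ε, hε, h⟩ := hG.1 a hp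
      obtain ⟨x, hx1, hx2⟩ := exists_rat_btwn (show pos (low a) - ε < pos (low a) + ε by linarith)
      refine ⟨x, 0, h x 0 ?_⟩
      rw [abs_lt]
      constructor <;> linarith
    | cop x i => exact ⟨x, i, hp⟩
  obtain ⟨x, i, hx⟩ := h1
  obtain ⟨ε, hε, h⟩ := hG.2 x i hx
  obtain ⟨a, ha1, ha2⟩ := exists_rat_btwn
    (show (x : ℝ) - ε / 2 - Real.sqrt 2 < x + ε / 2 - Real.sqrt 2 by linarith)
  refine ⟨low a, ⟨a, rfl⟩, ?_⟩
  rw [mem_closure_iff]
  intro O hO haO
  obtain ⟨δ, hδ, h2⟩ := hO.1 a haO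
  have hp : pos (low a) = Real.sqrt 2 + a := rfl
  obtain ⟨y, hy1, hy2⟩ := exists_rat_btwn
    (show max (pos (low a) - δ) (pos (low a) - ε / 2) < pos (low a) by
      apply max_lt <;> linarith)
  have e1 := le_max_left (pos (low a) - δ) (pos (low a) - ε / 2)
  have e2 := le_max_right (pos (low a) - δ) (pos (low a) - ε / 2)
  refine ⟨cop y i, h2 y i ?_, h y ?_⟩
  · rw [abs_lt]
    constructor <;> linarith
  · rw [abs_lt]
    constructor <;> linarith

/-- The `Gδ` sets of the counterexample. -/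
def bad (S : Set ℝ) : Set Sp := {p | ∀ x i, p = cop x i → i ∈ S}

theorem isGδ_bad (S : Set ℝ) : IsGδ (bad S) := by
  have h : bad S = ⋂ q : ℚ, {p | ∀ x i, p = cop x i → i ∈ S ∨ x ≠ q} := by
    ext p
    simp only [bad, mem_ofPred_eq, mem_iInter]
    constructor
    · intro h q x i hp
      exact Or.inl (h x i hp)
    · intro h x i hp
      rcases h x x i hp with h | h
      · exact h
      · exact absurd rfl h
  rw [h]
  refine IsGδ.iInter_of_isOpen fun q => ?_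
  refine (isOpen_def _).mpr ⟨fun a _ => ?_, fun x i hx => ?_⟩
  · refine ⟨|(q : ℝ) - pos (low a)|, ?_, fun x i hx y j hp => ?_⟩
    · rw [gt_iff_lt, abs_pos, sub_ne_zero]
      exact (pos_low_ne a q).symm
    · right
      rintro rfl
      obtain ⟨rfl, rfl⟩ : x = y ∧ i = j := by simpa using hp
      exact lt_irrefl _ hx
  · rcases hx x i rfl with h | h
    · refine ⟨1, one_pos, fun y _ z j hp => ?_⟩
      obtain ⟨rfl, rfl⟩ : y = z ∧ i = j := by simpa using hp
      exact Or.inl h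
    · refine ⟨|(q : ℝ) - x|, ?_, fun y hy z j hp => ?_⟩
      · rw [gt_iff_lt, abs_pos, sub_ne_zero]
        intro h'
        exact h (by exact_mod_cast h'.symm)
      · obtain ⟨rfl, rfl⟩ : y = z ∧ i = j := by simpa using hp
        right
        rintro rfl
        exact lt_irrefl _ hy

theorem compact_sub (K : Set Sp) (hK : IsCompact K) :
    ∃ S : Set ℝ, S.Countable ∧ K ⊆ bad S := by
  have hfin : ∀ x : ℚ, {i : ℝ | cop x i ∈ K}.Finite := by
    intro x
    have hcl : IsClosed {p : Sp | ∃ i, p = cop x i} := by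
      rw [← isOpen_compl_iff]
      refine (isOpen_def _).mpr ⟨fun a _ => ?_, fun y j hy => ?_⟩
      · refine ⟨|(x : ℝ) - pos (low a)|, ?_, fun z i hz => ?_⟩
        · rw [gt_iff_lt, abs_pos, sub_ne_zero]
          exact (pos_low_ne a x).symm
        · rintro ⟨j, hj⟩
          obtain ⟨rfl, rfl⟩ : z = x ∧ i = j := by simpa using hj
          exact lt_irrefl _ hz
      · have hne : x ≠ y := by
          rintro rfl
          exact hy ⟨j, rfl⟩
        refine ⟨|(x : ℝ) - y|, ?_, fun z hz => ?_⟩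
        · rw [gt_iff_lt, abs_pos, sub_ne_zero]
          intro h'
          exact hne (by exact_mod_cast h')
        · rintro ⟨i, hi⟩
          obtain ⟨rfl, rfl⟩ : z = x ∧ j = i := by simpa using hi
          exact lt_irrefl _ hz
    have hK' := hK.inter_right hcl
    obtain ⟨t, ht⟩ := hK'.elim_finite_subcover (fun i : ℝ => {p : Sp | ∃ y, p = cop y i})
      isOpen_copy (by
        rintro p ⟨-, i, rfl⟩
        exact mem_iUnion.mpr ⟨i, x, rfl⟩)
    refine t.finite_toSet.subset ?_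
    intro i hi
    have := ht ⟨hi, i, rfl⟩
    simp only [mem_iUnion] at this
    obtain ⟨j, hj, y, hy⟩ := this
    obtain ⟨rfl, rfl⟩ : x = y ∧ i = j := by simpa using hy
    exact hj
  refine ⟨⋃ x : ℚ, {i : ℝ | cop x i ∈ K}, countable_iUnion fun x => (hfin x).countable, ?_⟩
  rintro _ hp x i rfl
  exact mem_iUnion.mpr ⟨x, hp⟩

theorem not_weaklyAlster : ¬ WeaklyAlster Sp := by
  intro h
  obtain ⟨𝒱, hsub, hc, hd⟩ := h {U | ∃ S : Set ℝ, S.Countable ∧ U = bad S}
    (by rintro _ ⟨S, -, rfl⟩; exact isGδ_bad S)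
    (by
      rintro ⟨S, hS, hu⟩
      apply Cardinal.not_countable_real
      refine hS.mono fun i _ => ?_
      have : cop 0 i ∈ bad S := by rw [← hu]; trivial
      exact this 0 i rfl)
    (fun K hK => by
      obtain ⟨S, hS, hKS⟩ := compact_sub K hK
      exact ⟨_, ⟨S, hS, rfl⟩, hKS⟩)
  have h1 : ∀ U : Set Sp, ∃ S : Set ℝ, S.Countable ∧ (U ∈ 𝒱 → U = bad S) := by
    intro U
    by_cases hU : U ∈ 𝒱
    · obtain ⟨S, hS, hUS⟩ := hsub hU
      exact ⟨S, hS, fun _ => hUS⟩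
    · exact ⟨∅, countable_empty, fun h => absurd h hU⟩
  choose s hs1 hs2 using h1
  have h2 : (⋃ U ∈ 𝒱, s U).Countable := hc.biUnion fun U _ => hs1 U
  obtain ⟨i, hi⟩ : ∃ i, i ∉ ⋃ U ∈ 𝒱, s U := by
    by_contra hcon
    push Not at hcon
    exact Cardinal.not_countable_real (h2.mono fun i _ => hcon i)
  obtain ⟨p, ⟨x, rfl⟩, U, hU, hp⟩ := hd.inter_open_nonempty _ (isOpen_copy i) ⟨cop 0 i, 0, rfl⟩
  apply hi
  rw [hs2 U hU] at hp
  simp only [mem_iUnion]
  exact ⟨U, hU, hp x i rfl⟩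

/-- There is a Hausdorff space which is productively weakly Lindelöf but not weakly Alster. -/
theorem result : ∃ (X : Type) (_ : TopologicalSpace X), T2Space X ∧
    ProductivelyWeaklyLindelof.{0, v} X ∧ ¬ WeaklyAlster X :=
  ⟨Sp, topo, inferInstance, productively, not_weaklyAlster⟩

end Pool.Agent.Results.MP_b47357_gt.HausdorffCounterexample
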